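import Pool.Agent.helper57.MS.Spec

/-!
# ST1: the extraction step (helper57)
-/

set_option autoImplicit false

open Finset

namespace Pool.Agent.helper57.MS

open Pool.Agent.RRank Pool.Agent.helper26.IM

section ST1

variable {d l : ℕ} {Q : Fin d → Type} {K : Type} [Field K]

theorem ST1_cop_sum_mul {κ : Type} [Fintype κ] (b r : κ → ((α : Fin d) → Q α) → K)
    (s : Fin d → Fin l) :
    cop (∑ k, b k * r k) s = ∑ k, cop (b k) s * cop (r k) s := by
  funext x
  simp [cop, Finset.sum_apply, Pi.mul_apply]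

omit [Field K] in
theorem ST1_cop_congr {f : ((α : Fin d) → Q α) → K} {J : Finset (Fin d)}
    (hf : DependsOn f (J : Set (Fin d))) {s s' : Fin d → Fin l} (h : ∀ α ∈ J, s α = s' α) :
    cop f s = cop f s' := by
  funext x
  unfold cop
  apply hf
  intro α hα
  have h2 := h α (by simpa using hα)
  show x (α, s α) = x (α, s' α)
  rw [h2]

theorem ST1_mem_gr {S : Finset (Fin d)} {s : Fin d → Fin l} {w : Fin d × Fin l} :
    w ∈ gr S s ↔ w.1 ∈ S ∧ w.2 = s w.1 := by
  unfold gr
  rw [Finset.mem_image]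
  constructor
  · rintro ⟨α, hα, rfl⟩
    exact ⟨hα, rfl⟩
  · rintro ⟨h1, h2⟩
    exact ⟨w.1, h1, by rw [← h2]⟩

/-- for `σ` in the index set and `α ∈ J`: `σ α i ≥ m` if `σ s₀ i ≥ m` -/
theorem ST1_ge {J : Finset (Fin d)} {s₀ : Fin d} {m : ℕ} {σ : Fin d → Equiv.Perm (Fin l)}
    (hσ : ∀ α ∈ J, ∀ i, (σ s₀ i : ℕ) < m → σ α i = σ s₀ i) {α : Fin d} (hα : α ∈ J) {i : Fin l}
    (hi : m ≤ (σ s₀ i : ℕ)) : m ≤ (σ α i : ℕ) := by
  by_contra hlt
  push Not at hlt
  -- the element j with σ s₀ j = σ α i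
  set j := (σ s₀).symm (σ α i) with hj
  have h1 : σ s₀ j = σ α i := by rw [hj]; simp
  have h2 : σ α j = σ s₀ j := hσ α hα j (by rw [h1]; exact hlt)
  have h3 : σ α j = σ α i := h2.trans h1
  have h4 : j = i := (σ α).injective h3
  rw [h4] at h1
  rw [← h1] at hlt
  omega

end ST1

theorem ST1 (hUNQ : UNQ_stmt) (hCIN : CIN_stmt) : ST1_stmt := by
  classical
  intro K _ d l Q G S A s₀ κ _ J b r hJ hb hr hind k₀ m hm h0
  set g : ((α : Fin d) → Q α) → K := ∑ k, b k * r k with hg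
  set mm : Fin l := ⟨m, hm⟩ with hmm
  have hgS : g ∈ G.F.E S := by
    rw [hg]
    refine Subalgebra.sum_mem _ fun k _ => Subalgebra.mul_mem _ ?_ ?_
    · exact G.F.mono _ _ (hJ k).2 (hb k)
    · exact G.F.mono _ _ Finset.sdiff_subset (hr k)
  -- the index set
  set Sg : Finset (Fin d → Equiv.Perm (Fin l)) :=
    (univ : Finset (Fin d → Equiv.Perm (Fin l))).filter
      (fun σ => ∀ α ∈ J k₀, ∀ i, (σ s₀ i : ℕ) < m → σ α i = σ s₀ i) with hSg
  let ist : (Fin d → Equiv.Perm (Fin l)) → Fin l := fun σ => (σ s₀).symm mm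
  have hist : ∀ σ : Fin d → Equiv.Perm (Fin l), σ s₀ (ist σ) = mm := fun σ => by simp [ist]
  let fac : (Fin d → Equiv.Perm (Fin l)) → Fin l → (((w : Fin d × Fin l) → Q w.1) → K) :=
    fun σ i => if (σ s₀ i : ℕ) < m then cop (r k₀) (fun α => σ α i) else cop g (fun α => σ α i)
  let Rest : (Fin d → Equiv.Perm (Fin l)) → (((w : Fin d × Fin l) → Q w.1) → K) :=
    fun σ => ∏ i ∈ univ.erase (ist σ), fac σ i
  have hprod : ∀ σ : Fin d → Equiv.Perm (Fin l), ∏ i, fac σ i = cop g (fun α => σ α (ist σ)) * Rest σ := by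
    intro σ
    rw [← Finset.mul_prod_erase univ (fac σ) (Finset.mem_univ (ist σ))]
    congr 1
    have : ¬ ((σ s₀ (ist σ) : ℕ) < m) := by rw [hist]; simp [hmm]
    simp only [fac, if_neg this]
  -- the index type
  let κ' : Type := {p : κ × (Fin d → Fin l) // p.2 s₀ = mm ∧ (∀ α, α ∉ J p.1 → p.2 α = mm) ∧
    ∀ α ∈ J p.1, α ∈ J k₀ → m ≤ (p.2 α : ℕ)}
  have : Fintype κ' := by
    dsimp only [κ']
    infer_instance
  let cond : κ' → (Fin d → Equiv.Perm (Fin l)) → Prop :=
    fun p σ => ∀ α ∈ J p.1.1, σ α (ist σ) = p.1.2 α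
  let R' : κ' → (((w : Fin d × Fin l) → Q w.1) → K) := fun p =>
    ∑ σ ∈ Sg.filter (fun σ => cond p σ),
      sg K A σ • (cop (r p.1.1) (fun α => σ α (ist σ)) * Rest σ)
  -- the sum
  have hsum : ∑ p : κ', cop (b p.1.1) p.1.2 * R' p = 0 := by
    have h1 : ∀ p : κ', cop (b p.1.1) p.1.2 * R' p = ∑ σ ∈ Sg, if cond p σ then
        sg K A σ • (cop (b p.1.1) (fun α => σ α (ist σ)) *
          cop (r p.1.1) (fun α => σ α (ist σ)) * Rest σ) else 0 := by
      intro p
      simp only [R']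
      rw [Finset.mul_sum, ← Finset.sum_filter]
      refine Finset.sum_congr rfl fun σ hσ => ?_
      have hc : cond p σ := (Finset.mem_filter.1 hσ).2
      have h2 : cop (b p.1.1) p.1.2 = cop (b p.1.1) (fun α => σ α (ist σ)) :=
        ST1_cop_congr (G.F.dep _ _ (hb p.1.1)) (fun α hα => (hc α hα).symm)
      rw [h2, mul_smul_comm, mul_assoc]
    rw [Finset.sum_congr rfl fun p _ => h1 p, Finset.sum_comm]
    have h3 : ∀ σ ∈ Sg, (∑ p : κ', if cond p σ then
        sg K A σ • (cop (b p.1.1) (fun α => σ α (ist σ)) *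
          cop (r p.1.1) (fun α => σ α (ist σ)) * Rest σ) else 0) = sg K A σ • ∏ i, fac σ i := by
      intro σ hσ
      have hσ' := (Finset.mem_filter.1 hσ).2
      rw [hprod σ, hg, ST1_cop_sum_mul, Finset.sum_mul, Finset.smul_sum, ← Finset.sum_filter]
      refine Finset.sum_bij (fun p _ => p.1.1) (fun p _ => Finset.mem_univ _) ?_ ?_ ?_
      · intro p hp p' hp' he
        have hc := (Finset.mem_filter.1 hp).2
        have hc' := (Finset.mem_filter.1 hp').2
        apply Subtype.ext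
        apply Prod.ext he
        funext α
        by_cases hα : α ∈ J p.1.1
        · rw [← hc α hα, ← hc' α (by rw [← he]; exact hα)]
        · rw [p.2.2.1 α hα, p'.2.2.1 α (by rw [← he]; exact hα)]
      · intro k _
        refine ⟨⟨(k, fun α => if α ∈ J k then σ α (ist σ) else mm), ?_, ?_, ?_⟩, ?_, rfl⟩
        · show (if s₀ ∈ J k then σ s₀ (ist σ) else mm) = mm
          rw [if_pos (hJ k).1, hist]
        · intro α hα
          show (if α ∈ J k then σ α (ist σ) else mm) = mm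
          rw [if_neg hα]
        · intro α hα hα0
          show m ≤ ((if α ∈ J k then σ α (ist σ) else mm : Fin l) : ℕ)
          rw [if_pos hα]
          exact ST1_ge hσ' hα0 (by rw [hist])
        · rw [Finset.mem_filter]
          refine ⟨Finset.mem_univ _, ?_⟩
          intro α hα
          show σ α (ist σ) = if α ∈ J k then σ α (ist σ) else mm
          rw [if_pos hα]
      · intro p hp
        rfl
    rw [Finset.sum_congr rfl h3]
    exact h0
  -- the set
  let Sm : Finset (Fin d × Fin l) :=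
    (S ×ˢ (univ : Finset (Fin l))).filter (fun w => ¬ (w.1 ∈ J k₀ ∧ (w.2 : ℕ) < m))
  have hSm : ∀ w : Fin d × Fin l, w ∈ Sm ↔ w.1 ∈ S ∧ ¬ (w.1 ∈ J k₀ ∧ (w.2 : ℕ) < m) := by
    intro w
    simp [Sm]
  have key := hUNQ K (Fin d × Fin l) (fun w => Q w.1) G.F' Sm (s₀, mm) κ'
    (fun p => gr (J p.1.1) p.1.2) (fun p => cop (b p.1.1) p.1.2) R' ?_ ?_ ?_ ?_ hsum
  · -- conclusion
    let p₀ : κ' := ⟨(k₀, fun _ => mm), rfl, fun _ _ => rfl, fun _ _ _ => by simp [hmm]⟩
    have h1 : R' p₀ = 0 := key p₀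
    rw [← h1]
    unfold Gm
    simp only [R']
    have hset : (univ : Finset (Fin d → Equiv.Perm (Fin l))).filter
        (fun σ => ∀ α ∈ J k₀, ∀ i, (σ s₀ i : ℕ) < m + 1 → σ α i = σ s₀ i) =
        Sg.filter (fun σ => cond p₀ σ) := by
      ext σ
      simp only [Finset.mem_filter, Finset.mem_univ, true_and, hSg, cond, p₀]
      constructor
      · intro h
        refine ⟨fun α hα i hi => h α hα i (by omega), fun α hα => ?_⟩
        rw [h α hα (ist σ) (by rw [hist]; simp [hmm]), hist]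
      · rintro ⟨h1, h2⟩ α hα i hi
        rcases Nat.lt_succ_iff_lt_or_eq.1 hi with h3 | h3
        · exact h1 α hα i h3
        · have h4 : i = ist σ := by
            apply (σ s₀).injective
            rw [hist]
            apply Fin.ext
            rw [h3]
          rw [h4, h2 α hα, hist]
    rw [hset]
    refine Finset.sum_congr rfl fun σ hσ => ?_
    congr 1
    rw [← Finset.mul_prod_erase univ _ (Finset.mem_univ (ist σ))]
    congr 1
    · have : ((σ s₀ (ist σ) : ℕ) < m + 1) := by rw [hist]; simp [hmm]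
      rw [if_pos this]
    · refine Finset.prod_congr rfl fun i hi => ?_
      have hne : i ≠ ist σ := Finset.ne_of_mem_erase hi
      have h5 : (σ s₀ i : ℕ) ≠ m := by
        intro h6
        apply hne
        apply (σ s₀).injective
        rw [hist]
        apply Fin.ext
        rw [h6]
      by_cases h7 : (σ s₀ i : ℕ) < m
      · simp only [fac, if_pos h7, if_pos (show (σ s₀ i : ℕ) < m + 1 by omega)]
      · simp only [fac, if_neg h7, if_neg (show ¬ (σ s₀ i : ℕ) < m + 1 by omega)]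
  · -- sets
    intro p
    refine ⟨?_, ?_⟩
    · rw [ST1_mem_gr]
      exact ⟨(hJ _).1, p.2.1.symm⟩
    · intro w hw
      rw [ST1_mem_gr] at hw
      rw [hSm]
      refine ⟨(hJ _).2 hw.1, ?_⟩
      rintro ⟨h1, h2⟩
      have := p.2.2.2 w.1 hw.1 h1
      rw [hw.2] at h2
      omega
  · intro p
    exact G.cop_mem _ _ (hb _) _
  · -- coefficients
    intro p
    simp only [R']
    refine Subalgebra.sum_mem _ fun σ hσ => Subalgebra.smul_mem _ (Subalgebra.mul_mem _ ?_ ?_) _
    · have hσ1 := (Finset.mem_filter.1 (Finset.mem_filter.1 hσ).1).2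
      have hσ2 := (Finset.mem_filter.1 hσ).2
      refine G.F'.mono _ _ ?_ (G.cop_mem _ _ (hr _) _)
      intro w hw
      rw [ST1_mem_gr, Finset.mem_sdiff] at hw
      rw [Finset.mem_sdiff, hSm, ST1_mem_gr]
      refine ⟨⟨hw.1.1, ?_⟩, fun h => hw.1.2 h.1⟩
      rintro ⟨h1, h2⟩
      have := ST1_ge hσ1 h1 (i := ist σ) (by rw [hist])
      rw [hw.2] at h2
      omega
    · have hσ1 := (Finset.mem_filter.1 (Finset.mem_filter.1 hσ).1).2
      have hσ2 := (Finset.mem_filter.1 hσ).2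
      refine Subalgebra.prod_mem _ fun i hi => ?_
      have hne : i ≠ ist σ := Finset.ne_of_mem_erase hi
      -- points of the graph of σ · i are not in the graph of p
      have hdis : ∀ α, ¬ (α ∈ J p.1.1 ∧ σ α i = p.1.2 α) := by
        rintro α ⟨h1, h2⟩
        rw [← hσ2 α h1] at h2
        exact hne ((σ α).injective h2)
      by_cases h7 : (σ s₀ i : ℕ) < m
      · simp only [fac, if_pos h7]
        refine G.F'.mono _ _ ?_ (G.cop_mem _ _ (hr _) _)
        intro w hw
        rw [ST1_mem_gr, Finset.mem_sdiff] at hw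
        rw [Finset.mem_sdiff, hSm, ST1_mem_gr]
        refine ⟨⟨hw.1.1, fun h => hw.1.2 h.1⟩, ?_⟩
        rintro ⟨h1, h2⟩
        exact hdis w.1 ⟨h1, by rw [← h2, hw.2]⟩
      · simp only [fac, if_neg h7]
        refine G.F'.mono _ _ ?_ (G.cop_mem _ _ hgS _)
        intro w hw
        rw [ST1_mem_gr] at hw
        rw [Finset.mem_sdiff, hSm, ST1_mem_gr]
        refine ⟨⟨hw.1, ?_⟩, ?_⟩
        · rintro ⟨h1, h2⟩
          have := ST1_ge hσ1 h1 (i := i) (by omega)
          rw [hw.2] at h2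
          omega
        · rintro ⟨h1, h2⟩
          exact hdis w.1 ⟨h1, by rw [← h2, hw.2]⟩
  · -- independence
    refine hCIN K d l Q G κ J b hind κ' (fun p => p.1.1) (fun p => p.1.2) ?_
    intro p p' he
    have he2 : (p.1.1, gr (J p.1.1) p.1.2) = (p'.1.1, gr (J p'.1.1) p'.1.2) := he
    have h1 : p.1.1 = p'.1.1 := (Prod.mk.inj he2).1
    have h2 : gr (J p.1.1) p.1.2 = gr (J p'.1.1) p'.1.2 := (Prod.mk.inj he2).2
    apply Subtype.ext
    apply Prod.ext h1
    funext α
    by_cases hα : α ∈ J p.1.1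
    · have h3 : (α, p.1.2 α) ∈ gr (J p'.1.1) p'.1.2 := by
        rw [← h2, ST1_mem_gr]
        exact ⟨hα, rfl⟩
      rw [ST1_mem_gr] at h3
      exact h3.2
    · rw [p.2.2.1 α hα, p'.2.2.1 α (by rw [← h1]; exact hα)]

end Pool.Agent.helper57.MS
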