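import Mathlib
import Pool.Agent.helper26.RRank
import Pool.Agent.helper26.IM.Defs

/-!
# Project ms: full minors for separated families, all orders (helper57). Definitions

* `OddP A P`: some part of the partition `P` meets `A` in an odd number of elements;
* `cl R`, `Sep R`: closure of a family of partitions, separated families;
* `FSys K Ω Q`: a system of algebras `E S` of functions of the coordinates in `S`;
* `D`, `L`, `Ind`, `Fs`: decomposable functions, filtration, independence modulo decomposables, sums of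
  products of given types;
* `FSys2`: a system on `Fin d` and a system on `Fin d × Fin l` which are compatible;
* `H l A g`: the polarised sum;
* `Int 𝓅 K Q S f`: `f` is an internal function of the coordinates in `S`;
* `UF` (ultraproduct of fields) is taken from `Pool/Agent/helper26/IM/Defs.lean`.
-/

set_option autoImplicit false

open Finset

namespace Pool.Agent.helper57.MS

open Pool.Agent.RRank Pool.Agent.helper26.IM

/-! ## Families of partitions -/

/-- some part of `P` meets `A` in an odd number of elements -/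
def OddP {d : ℕ} {S : Finset (Fin d)} (A : Finset (Fin d)) (P : Finpartition S) : Prop :=
  ∃ I ∈ P.parts, Odd (I ∩ A).card

/-- the closure of a family: `P` is odd for every `A` for which all members of the family are odd -/
def cl {d : ℕ} (R : Set (IndexPartition d)) : Set (IndexPartition d) :=
  {P | ∀ A : Finset (Fin d), (∀ P' ∈ R, OddP A P') → OddP A P}

/-- `R` is separated: every member of `cl R` refines a member of `R` -/
def Sep {d : ℕ} (R : Set (IndexPartition d)) : Prop := ∀ P ∈ cl R, ∃ P' ∈ R, P ≤ P'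

/-- the partitions `{I, Iᶜ}` with `|I ∩ A|` odd -/
def RA {d : ℕ} (A : Finset (Fin d)) : Set (IndexPartition d) :=
  {P | P.parts.card = 2 ∧ OddP A P}

/-- the family of the common refinements -/
def meet {d : ℕ} (R R' : Set (IndexPartition d)) : Set (IndexPartition d) :=
  {P | ∃ P₁ ∈ R, ∃ P₂ ∈ R', P = P₁ ⊓ P₂}

/-! ## Systems of algebras of functions -/

/-- the function obtained by fixing the coordinate `w` to `q` -/
def ev {Ω : Type} [DecidableEq Ω] {Q : Ω → Type} {K : Type} (w : Ω) (q : Q w)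
    (f : ((ω : Ω) → Q ω) → K) : ((ω : Ω) → Q ω) → K :=
  fun x => f (Function.update x w q)

/-- a monotone system of algebras `E S` of functions which depend only on the coordinates in `S`, such that fixing
a coordinate maps `E S` to `E (S \ {w})` -/
structure FSys (K : Type) [Field K] (Ω : Type) [DecidableEq Ω] (Q : Ω → Type) where
  E : Finset Ω → Subalgebra K (((ω : Ω) → Q ω) → K)
  mono : ∀ S S' : Finset Ω, S ⊆ S' → E S ≤ E S'
  dep : ∀ (S : Finset Ω), ∀ f ∈ E S, DependsOn f (S : Set Ω)
  ev_mem : ∀ (S : Finset Ω), ∀ f ∈ E S, ∀ (w : Ω) (q : Q w), ev w q f ∈ E (S.erase w)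

section

variable {K : Type} [Field K] {Ω : Type} [DecidableEq Ω] {Q : Ω → Type}

/-- decomposable functions of the coordinates in `S` -/
def FSys.D (F : FSys K Ω Q) (S : Finset Ω) : Submodule K (((ω : Ω) → Q ω) → K) :=
  Submodule.span K {h | ∃ S' S'' : Finset Ω, S'.Nonempty ∧ S''.Nonempty ∧ Disjoint S' S'' ∧
    S' ∪ S'' = S ∧ ∃ f ∈ F.E S', ∃ g ∈ F.E S'', h = f * g}

/-- sums of products `f g`, `f` a function of the coordinates in a set `J` which contains `s` and has less than `M`
elements -/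
def FSys.L (F : FSys K Ω Q) (s : Ω) (M : ℕ) (S : Finset Ω) :
    Submodule K (((ω : Ω) → Q ω) → K) :=
  Submodule.span K {h | ∃ J : Finset Ω, J ⊆ S ∧ s ∈ J ∧ J.card < M ∧
    ∃ f ∈ F.E J, ∃ g ∈ F.E (S \ J), h = f * g}

/-- for every set `J₀` the `b k` with `J k = J₀` are linearly independent modulo `D J₀` -/
def FSys.Ind (F : FSys K Ω Q) {κ : Type} [Fintype κ] (J : κ → Finset Ω)
    (b : κ → ((ω : Ω) → Q ω) → K) : Prop :=
  ∀ (J₀ : Finset Ω) (c : κ → K), (∀ k, J k ≠ J₀ → c k = 0) → (∑ k, c k • b k) ∈ F.D J₀ →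
    ∀ k, c k = 0

/-- `B J` is a basis of `E J` modulo `D J` -/
structure FSys.IsB (F : FSys K Ω Q) (B : Finset Ω → Set (((ω : Ω) → Q ω) → K)) : Prop where
  mem : ∀ J, ∀ b ∈ B J, b ∈ F.E J
  span : ∀ J, ∀ f ∈ F.E J, f ∈ Submodule.span K (B J) ⊔ F.D J
  ind : ∀ (J : Finset Ω) (t : Finset (((ω : Ω) → Q ω) → K)), (∀ b ∈ t, b ∈ B J) →
    ∀ c : (((ω : Ω) → Q ω) → K) → K, (∑ b ∈ t, c b • b) ∈ F.D J → ∀ b ∈ t, c b = 0

/-- sums of products of functions, one for each part of a partition in `PP` -/
def FSys.Fs (F : FSys K Ω Q) {S : Finset Ω} (PP : Set (Finpartition S)) :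
    Submodule K (((ω : Ω) → Q ω) → K) :=
  Submodule.span K {f | ∃ P ∈ PP, ∃ h : Finset Ω → ((ω : Ω) → Q ω) → K,
    (∀ I ∈ P.parts, h I ∈ F.E I) ∧ f = ∏ I ∈ P.parts, h I}

/-- the partitions `P'` of `S \ J` such that `P'` together with `J` is a member of `PP` -/
def lnk {S : Finset Ω} (J : Finset Ω) (PP : Set (Finpartition S)) : Set (Finpartition (S \ J)) :=
  {P' | ∃ P ∈ PP, P.parts = insert J P'.parts}

end

/-! ## Copies -/

/-- the graph of `s` over `S` -/
def gr {d l : ℕ} (S : Finset (Fin d)) (s : Fin d → Fin l) : Finset (Fin d × Fin l) :=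
  S.image (fun α => (α, s α))

/-- the copy of a function at the coordinates `(α, s α)` -/
def cop {d l : ℕ} {Q : Fin d → Type} {K : Type} (f : ((α : Fin d) → Q α) → K) (s : Fin d → Fin l) :
    ((w : Fin d × Fin l) → Q w.1) → K :=
  fun x => f (fun α => x (α, s α))

/-- the restriction of a function to the diagonal points -/
def dia {d l : ℕ} {Q : Fin d → Type} {K : Type} (f : ((w : Fin d × Fin l) → Q w.1) → K) :
    ((α : Fin d) → Q α) → K :=
  fun y => f (fun w => y w.1)

/-- a system on `Fin d` and a system on `Fin d × Fin l`, with copies and diagonal restriction -/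
structure FSys2 (K : Type) [Field K] (d l : ℕ) (Q : Fin d → Type) where
  F : FSys K (Fin d) Q
  F' : FSys K (Fin d × Fin l) (fun w => Q w.1)
  cop_mem : ∀ (S : Finset (Fin d)), ∀ f ∈ F.E S, ∀ s : Fin d → Fin l, cop f s ∈ F'.E (gr S s)
  dia_mem : ∀ (S : Finset (Fin d × Fin l)), ∀ f ∈ F'.E S, dia f ∈ F.E (S.image Prod.fst)

/-- the sign of a family of permutations in the directions `A` -/
noncomputable def sg (K : Type) [Field K] {d l : ℕ} (A : Finset (Fin d)) (σ : Fin d → Equiv.Perm (Fin l)) :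
    K :=
  ∏ α ∈ A, ((Equiv.Perm.sign (σ α) : ℤ) : K)

/-- the polarised sum -/
noncomputable def H {d : ℕ} (l : ℕ) {Q : Fin d → Type} {K : Type} [Field K] (A : Finset (Fin d))
    (g : ((α : Fin d) → Q α) → K) : ((w : Fin d × Fin l) → Q w.1) → K :=
  ∑ σ : Fin d → Equiv.Perm (Fin l), sg K A σ • ∏ i : Fin l, cop g (fun α => σ α i)

/-- the partial sums for the extraction: `σ α i = σ s₀ i` for `α ∈ J` and `σ s₀ i < m`, and `g` is replaced by `g₀` in the
factors `i` with `σ s₀ i < m` -/
noncomputable def Gm {d : ℕ} (l : ℕ) {Q : Fin d → Type} {K : Type} [Field K] (m : ℕ)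
    (A J : Finset (Fin d)) (s₀ : Fin d) (g g₀ : ((α : Fin d) → Q α) → K) :
    ((w : Fin d × Fin l) → Q w.1) → K :=
  ∑ σ ∈ (univ : Finset (Fin d → Equiv.Perm (Fin l))).filter
      (fun σ => ∀ α ∈ J, ∀ i, (σ s₀ i : ℕ) < m → σ α i = σ s₀ i),
    sg K A σ • ∏ i : Fin l, if (σ s₀ i : ℕ) < m then cop g₀ (fun α => σ α i)
      else cop g (fun α => σ α i)

/-! ## Internal functions -/

/-- `f` is an internal function of the coordinates in `S` -/
def Int (𝓅 : Ultrafilter ℕ) (K : ℕ → Type) [∀ n, Field (K n)] {Ω : Type} (Q : ℕ → Ω → Type)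
    (S : Finset Ω) (f : ((ω : Ω) → (n : ℕ) → Q n ω) → UF 𝓅 K) : Prop :=
  ∃ φ : (n : ℕ) → ((ω : Ω) → Q n ω) → K n, (∀ n, DependsOn (φ n) (S : Set Ω)) ∧
    ∀ x, f x = UF.mk 𝓅 (fun n => φ n (fun ω => x ω n))

end Pool.Agent.helper57.MS
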