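import Pool.Agent.helper57.MS.Defs

/-!
# Project ms: specification (helper57)

MP_b48e27_co, Q1 for all orders `d`, all fields in which `l! ≠ 0`, all separated families `R` (in particular all
families with at most two members); closure of the good families under common refinement (all fields).
Paper proof: /team-store/MP_b48e27_SEP_helper57.md.

Every `XX_stmt : Prop` is a row `ms:XX`. File `Pool/Agent/<you>/MS/XX.lean`,
`import Pool.Agent.helper57.MS.Spec`, namespace `Pool.Agent.helper57.MS`, `open Finset Pool.Agent.RRank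
Pool.Agent.helper26.IM`, theorem line exactly as in the lock note (other rows only as hypotheses, nobody waits), auxiliary
lemmas prefixed `XX_`.

`F.E S` is a subalgebra (closed under `+ * •`, constants, finite sums and products), monotone in `S`; a function in
`F.E S` depends only on the coordinates in `S`; `ev w q` is a ring homomorphism on functions, `ev w q f = f` if `f`
does not depend on `w`, and `f = 0` if `ev w q f = 0` for all `q` (`f x = ev w (x w) f x`).
-/

set_option autoImplicit false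

open Finset

namespace Pool.Agent.helper57.MS

open Pool.Agent.RRank Pool.Agent.helper26.IM

/-! ## 1. Uniqueness and existence of expansions -/

/-- UNI (short-medium): uniqueness of the top part. Induction on `S.card` (for all data). If the function space is empty
everything is zero. Let `k₁` be given. Case `J k₁ = S` (`M = S.card`, so `J k = S` for all `k`, by cardinality): `R k ∈ F.E ∅`
(`S \ S = ∅`) is constant, `R k = c k • 1` with `c k = R k x₀`; generators of `F.L s M S` have `J ≠ S`, so `S \ J` is nonempty, `J` is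
nonempty (`s ∈ J`), so `F.L s M S ≤ F.D S`; `Ind` gives `c = 0`. Case `J k₁ ≠ S`: take `α ∈ S \ J k₁` (`α ≠ s`), `q : Q α`. Apply
`ev α q` to `∑ b k * R k ∈ F.L s M S`. (a) `ev α q` maps `F.L s M S` into `F.L s M (S.erase α)`: a generator `f * g`, `f ∈ E J`,
`g ∈ E (S \ J)`: if `α ∈ J` then `ev f ∈ E (J.erase α)`, `ev g = g ∈ E (S \ J)`, `S \ J = S.erase α \ J.erase α`; if `α ∉ J` then `ev f = f`,
`ev g ∈ E ((S \ J).erase α) = E (S.erase α \ J)`. (b) for `α ∈ J k`: `ev (b k) * R k` is in `F.L s M (S.erase α)` (set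
`(J k).erase α`, `M - 1` elements). (c) for `α ∉ J k`: `ev (b k * R k) = b k * ev (R k)`. So the sum of `b k * ev α q (R k)` over the subtype
`{k // α ∉ J k}` is in `F.L s M (S.erase α)`; `Ind` is inherited by subtypes (extend `c` by zero); the induction hypothesis gives
`ev α q (R k₁) = 0`, for all `q`, so `R k₁ = 0`. -/
def UNI_stmt : Prop := ∀ (K : Type) [Field K] (Ω : Type) [DecidableEq Ω] (Q : Ω → Type)
  (F : FSys K Ω Q) (S : Finset Ω) (s : Ω) (M : ℕ) (κ : Type) [Fintype κ] (J : κ → Finset Ω)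
  (b R : κ → ((ω : Ω) → Q ω) → K), (∀ k, s ∈ J k ∧ J k ⊆ S ∧ (J k).card = M) →
  (∀ k, b k ∈ F.E (J k)) → (∀ k, R k ∈ F.E (S \ J k)) → F.Ind J b →
  (∑ k, b k * R k) ∈ F.L s M S → ∀ k, R k = 0

/-- UNQ (short): uniqueness. Otherwise let `M` be the maximum of `(J k).card` over the `k` with `R k ≠ 0`. Over the subtype
`{k // (J k).card = M}` the sum of the `b k * R k` is minus the sum over the `k` with `(J k).card < M` (the others vanish), which is in
`F.L s M S`. `UNI`. Hypothesis: `hUNI : UNI_stmt`. -/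
def UNQ_stmt : Prop := ∀ (K : Type) [Field K] (Ω : Type) [DecidableEq Ω] (Q : Ω → Type)
  (F : FSys K Ω Q) (S : Finset Ω) (s : Ω) (κ : Type) [Fintype κ] (J : κ → Finset Ω)
  (b R : κ → ((ω : Ω) → Q ω) → K), (∀ k, s ∈ J k ∧ J k ⊆ S) →
  (∀ k, b k ∈ F.E (J k)) → (∀ k, R k ∈ F.E (S \ J k)) → F.Ind J b →
  (∑ k, b k * R k) = 0 → ∀ k, R k = 0

/-- BAS (short-medium): existence of bases modulo decomposables. For each `J` (choice): a basis of the quotient of `F.E J` by
`F.D J` (for instance `exists_linearIndependent` / `Submodule.exists_isCompl`, or Zorn for the images in the quotient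
`(functions) ⧸ F.D J` of the elements of `F.E J`: `exists_linearIndepOn_extension`), `B J` a set of representatives in `F.E J`. -/
def BAS_stmt : Prop := ∀ (K : Type) [Field K] (Ω : Type) [DecidableEq Ω] (Q : Ω → Type)
  (F : FSys K Ω Q), ∃ B : Finset Ω → Set (((ω : Ω) → Q ω) → K), F.IsB B

/-- IDB (short): different elements of the bases are independent modulo decomposables. Given `J₀`, `c`: the sum over the `k` with
`J k = J₀` (on which `b` is injective) is a sum over the finset `t` of the `b k`; `IsB.ind`. -/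
def IDB_stmt : Prop := ∀ (K : Type) [Field K] (Ω : Type) [DecidableEq Ω] (Q : Ω → Type)
  (F : FSys K Ω Q) (B : Finset Ω → Set (((ω : Ω) → Q ω) → K)), F.IsB B →
  ∀ (κ : Type) [Fintype κ] (J : κ → Finset Ω) (b : κ → ((ω : Ω) → Q ω) → K),
  (∀ k, b k ∈ B (J k)) → Function.Injective (fun k => (J k, b k)) → F.Ind J b

/-- GRP (short-medium): elements of a span of products `b * h` are finite sums with different `(j, b)`. Prove by `Submodule.span_induction`:
there are `t : Finset (ι × V)` and `r : ι × V → V` with `p.2 ∈ B p.1`, `r p ∈ N p.1` for `p ∈ t` and `g = ∑ p ∈ t, p.2 * r p` (sum of two: union,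
`r` set to zero outside `t₁` and `t₂` first). Then `κ = t`. -/
def GRP_stmt : Prop := ∀ (K : Type) [Field K] (V : Type) [CommRing V] [Algebra K V] (ι : Type)
  (B : ι → Set V) (N : ι → Submodule K V) (g : V),
  g ∈ Submodule.span K {v | ∃ j, ∃ b ∈ B j, ∃ h ∈ N j, v = b * h} →
  ∃ (κ : Type) (_ : Fintype κ) (j : κ → ι) (b r : κ → V), (∀ k, b k ∈ B (j k)) ∧
    (∀ k, r k ∈ N (j k)) ∧ Function.Injective (fun k => (j k, b k)) ∧ g = ∑ k, b k * r k

/-- EXS (short-medium): existence of expansions, span version. Strong induction on `S.card`. By `IsB.span`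
`g ∈ span (B S) ⊔ D S`. `b ∈ B S`: `b = b * 1`, `J = S`. For a generator `f * g` of `D S`, `f ∈ E S'`, `g ∈ E S''`: by symmetry
(`mul_comm`) let `s ∈ S'`; `f` is in the span for `S'` (induction: `S''` is not empty), and `(b * h) * g = b * (h * g)`,
`h * g ∈ E ((S' \ J) ∪ S'') ⊆ E (S \ J)` (`J ⊆ S'` is disjoint from `S''`). -/
def EXS_stmt : Prop := ∀ (K : Type) [Field K] (Ω : Type) [DecidableEq Ω] (Q : Ω → Type)
  (F : FSys K Ω Q) (B : Finset Ω → Set (((ω : Ω) → Q ω) → K)), F.IsB B →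
  ∀ (S : Finset Ω) (s : Ω), s ∈ S → ∀ g ∈ F.E S,
  g ∈ Submodule.span K {v | ∃ J : Finset Ω, ∃ b ∈ {b | b ∈ B J ∧ s ∈ J ∧ J ⊆ S}, ∃ h ∈ F.E (S \ J),
    v = b * h}

/-- EXP (short): existence of expansions. `EXS` and `GRP` with `ι = Finset Ω`, `B' J = {b | b ∈ B J ∧ s ∈ J ∧ J ⊆ S}`,
`N J = F.E (S \ J)` as a submodule. Hypotheses: `hGRP : GRP_stmt`, `hEXS : EXS_stmt`. -/
def EXP_stmt : Prop := ∀ (K : Type) [Field K] (Ω : Type) [DecidableEq Ω] (Q : Ω → Type)
  (F : FSys K Ω Q) (B : Finset Ω → Set (((ω : Ω) → Q ω) → K)), F.IsB B →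
  ∀ (S : Finset Ω) (s : Ω), s ∈ S → ∀ g ∈ F.E S,
  ∃ (κ : Type) (_ : Fintype κ) (J : κ → Finset Ω) (b r : κ → ((ω : Ω) → Q ω) → K),
    (∀ k, s ∈ J k ∧ J k ⊆ S) ∧ (∀ k, b k ∈ B (J k)) ∧ (∀ k, r k ∈ F.E (S \ J k)) ∧
    Function.Injective (fun k => (J k, b k)) ∧ g = ∑ k, b k * r k

/-! ## 2. Extraction from the polarised sum -/

/-- CIN (short-medium): copies of independent functions are independent. `κ'` indexes pairs (member of the family, map `s`) such that
the pairs `(kk i, graph)` are different. Let `J₀` and `c` be given, `∑ c i • cop (b (kk i)) (ss i) ∈ D J₀`. If some `c i₀ ≠ 0` then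
`J₀ = gr (J (kk i₀)) (ss i₀)`, so `Prod.fst` is injective on `J₀`. `dia` is linear and multiplicative, `dia (cop f s) = f`, and maps `D J₀` to
`D (J₀.image Prod.fst)` (the images of disjoint nonempty subsets of `J₀` are disjoint and nonempty). For `c i ≠ 0`: `J (kk i) = J₀.image fst`.
So `∑ i, c i • b (kk i) ∈ D J₁`, `J₁ = J₀.image fst`; collect `c' k = ∑ (i with kk i = k), c i`; at most one `i` with `kk i = k` has `c i ≠ 0`
(the graphs are `J₀`), so `F.Ind` gives `c i₀ = 0`. -/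
def CIN_stmt : Prop := ∀ (K : Type) [Field K] (d l : ℕ) (Q : Fin d → Type) (G : FSys2 K d l Q)
  (κ : Type) [Fintype κ] (J : κ → Finset (Fin d)) (b : κ → ((α : Fin d) → Q α) → K),
  G.F.Ind J b → ∀ (κ' : Type) [Fintype κ'] (kk : κ' → κ) (ss : κ' → Fin d → Fin l),
  Function.Injective (fun i => (kk i, gr (J (kk i)) (ss i))) →
  G.F'.Ind (fun i => gr (J (kk i)) (ss i)) (fun i => cop (b (kk i)) (ss i))

/-- ST0 (short): for `m = 0` the partial sum is `H l A g`. -/
def ST0_stmt : Prop := ∀ (K : Type) [Field K] (d l : ℕ) (Q : Fin d → Type) (A J : Finset (Fin d))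
  (s₀ : Fin d) (g g₀ : ((α : Fin d) → Q α) → K), Gm l 0 A J s₀ g g₀ = H l A g

/-- ST1 (medium): the extraction step. `J' := J k₀`, `g₀ := r k₀`, `g = ∑ k, b k * r k`. For `σ` in the index set `Σ_m` of
`Gm l m` let `i⋆ = (σ s₀).symm m`. Write the product over `i` as `cop g (σ · i⋆)` times `Rest σ` (product over `i ≠ i⋆`), and
`cop g (σ · i⋆) = ∑ k, cop (b k) (σ · i⋆) * cop (r k) (σ · i⋆)`. Index set `κ' = {(k, s) : s : Fin d → Fin l, s s₀ = m, s α = m for α ∉ J k,
m ≤ s α for α ∈ J k ∩ J k₀}` (subtype), set `gr (J k) s`, `b' = cop (b k) s`, `R' (k, s)` = the sum over the `σ ∈ Σ_m` with `σ α i⋆ = s α` for all `α ∈ J k` of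
`sg K A σ • (cop (r k) (σ · i⋆) * Rest σ)` (`cop (b k) (σ · i⋆) = cop (b k) s` as `b k` depends on `J k` only). So
`Gm l m = ∑ (k,s), b' * R' = 0`. `UNQ` for `G.F'`, `S_m = (S ×ˢ univ) \ {(α, j) : α ∈ J k₀, j < m}`, point `(s₀, m)`: (1) `gr (J k) s` contains
`(s₀, m)` and is contained in `S_m`; for `σ ∈ Σ_m`, `α ∈ J k₀` the map `σ α` maps `{i : σ s₀ i < m}` onto `[0, m)` (it agrees with `σ s₀` there), so
`σ α i ≥ m` for the other `i`, in particular for `i⋆`: every `σ ∈ Σ_m` belongs for every `k` to exactly one `s`. (2) all factors of `R'` are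
in `G.F'.E (S_m \ gr (J k) s)` (`cop_mem`, `mono`, subalgebra): `cop (r k) (σ · i⋆)`: `α ∈ S \ J k`; `cop g₀ (σ · i)`, `σ s₀ i < m`: `α ∈ S \ J k₀`,
`i ≠ i⋆`; `cop g (σ · i)`, `σ s₀ i > m`. (3) `Ind` by `CIN` (the injectivity: `gr (J k) s` determines `s` on `J k`). The member `(k₀, s ≡ m)`:
`R' = Gm l (m+1)`. Hypotheses: `hUNQ : UNQ_stmt`, `hCIN : CIN_stmt`. -/
def ST1_stmt : Prop := ∀ (K : Type) [Field K] (d l : ℕ) (Q : Fin d → Type) (G : FSys2 K d l Q)
  (S A : Finset (Fin d)) (s₀ : Fin d) (κ : Type) [Fintype κ] (J : κ → Finset (Fin d))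
  (b r : κ → ((α : Fin d) → Q α) → K), (∀ k, s₀ ∈ J k ∧ J k ⊆ S) → (∀ k, b k ∈ G.F.E (J k)) →
  (∀ k, r k ∈ G.F.E (S \ J k)) → G.F.Ind J b → ∀ (k₀ : κ) (m : ℕ), m < l →
  Gm l m A (J k₀) s₀ (∑ k, b k * r k) (r k₀) = 0 →
  Gm l (m + 1) A (J k₀) s₀ (∑ k, b k * r k) (r k₀) = 0

/-- ST2 (short-medium): the last partial sum. For `m = l` the index set is `Σ_l = {σ : σ α = σ s₀ for α ∈ J}`, all factors are
`cop g₀ (σ · i)`, `sg K A σ = sg K (A \ J) σ` for `σ ∈ Σ_l` (`|J ∩ A|` even, `sign (σ s₀) ^ (even) = 1`). The terms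
`Φ σ = sg K (A \ J) σ • ∏ i, cop g₀ (σ · i)` of `H l (A \ J) g₀` do not depend on `σ α` for `α ∈ J` (`g₀` does not depend on the coordinates in
`J`). So `Φ σ = Φ (π σ)`, `π σ α = σ s₀` for `α ∈ J`, and `σ ↦ (π σ, (σ α)_{α ∈ J, α ≠ s₀})` is a bijection with
`Σ_l × (…)`: `H l (A \ J) g₀ = ∑_ρ ∑_{σ' ∈ Σ_l} Φ σ' = ∑_ρ 0 = 0`. -/
def ST2_stmt : Prop := ∀ (K : Type) [Field K] (d l : ℕ) (Q : Fin d → Type) (A J : Finset (Fin d))
  (s₀ : Fin d) (g g₀ : ((α : Fin d) → Q α) → K), s₀ ∈ J → Even (J ∩ A).card →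
  DependsOn g₀ ((Jᶜ : Finset (Fin d)) : Set (Fin d)) → Gm l l A J s₀ g g₀ = 0 →
  H l (A \ J) g₀ = 0

/-- STEP (short): extraction. `ST0`, induction on `m ≤ l` with `ST1`, `ST2`. -/
def STEP_stmt : Prop := ∀ (K : Type) [Field K] (d l : ℕ) (Q : Fin d → Type) (G : FSys2 K d l Q)
  (S A : Finset (Fin d)) (s₀ : Fin d) (κ : Type) [Fintype κ] (J : κ → Finset (Fin d))
  (b r : κ → ((α : Fin d) → Q α) → K), (∀ k, s₀ ∈ J k ∧ J k ⊆ S) → (∀ k, b k ∈ G.F.E (J k)) →
  (∀ k, r k ∈ G.F.E (S \ J k)) → G.F.Ind J b → H l A (∑ k, b k * r k) = 0 →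
  ∀ k₀ : κ, Even (J k₀ ∩ A).card → H l (A \ J k₀) (r k₀) = 0

/-- LNE (short-medium): multiplication with a function for one more part. If `g ∈ F.Fs (lnk J PP)`, `b ∈ F.E J`, `J ⊆ S`,
`J` nonempty, then `b * g ∈ F.Fs PP`. For a generator `∏ I ∈ P'.parts, h I` and `P ∈ PP` with `P.parts = insert J P'.parts`
(`J ∉ P'.parts`, as `J` is nonempty and disjoint from `S \ J`): `∏ I ∈ P.parts, (update h J b) I`. -/
def LNE_stmt : Prop := ∀ (K : Type) [Field K] (Ω : Type) [DecidableEq Ω] (Q : Ω → Type)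
  (F : FSys K Ω Q) (S J : Finset Ω) (PP : Set (Finpartition S)), J.Nonempty → J ⊆ S →
  ∀ b ∈ F.E J, ∀ g ∈ F.Fs (lnk J PP), b * g ∈ F.Fs PP

/-- STAR (medium): the main lemma. Strong induction on `S.card`. `S = ∅`: `g` is a constant `c`; if `AA` has a member then
`H l (A ∩ ∅) g = (l!)^d c^l` (constant function; `cop` of a constant), so `c = 0`; if `AA = ∅` then `g = c • 1` and `1` is the empty
product for the empty partition (`⊥ : Finpartition ∅`, no parts). If the function space is empty then `g = 0`. `S ≠ ∅`: `s₀ ∈ S`, `BAS`, `EXP`,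
`IDB`: `g = ∑ b k * r k`. For each `k` put `AA k = {A ∈ AA | Even (J k ∩ A).card}`. For `A ∈ AA k`: `STEP` with `A ∩ S` in place of `A`
(`J k ∩ (A ∩ S) = J k ∩ A`) gives `H l ((A ∩ S) \ J k) (r k) = 0`, `(A ∩ S) \ J k = A ∩ (S \ J k)`. Induction: `r k` is in
`Fs {P' | ∀ A ∈ AA k, OddP A P'}`, which is contained in `Fs (lnk (J k) PP)`: for such `P'` the partition `P = P'.extend` with the
additional part `J k` is `OddP A` for all `A ∈ AA` (part `J k` if `|J k ∩ A|` is odd). `LNE`.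
Hypotheses: `hBAS hIDB hEXP hSTEP hLNE`. -/
def STAR_stmt : Prop := ∀ (K : Type) [Field K] (d l : ℕ) (Q : Fin d → Type) (G : FSys2 K d l Q),
  (l.factorial : K) ≠ 0 → ∀ (S : Finset (Fin d)) (AA : Finset (Finset (Fin d))), ∀ g ∈ G.F.E S,
  (∀ A ∈ AA, H l (A ∩ S) g = 0) → g ∈ G.F.Fs {P : Finpartition S | ∀ A ∈ AA, OddP A P}

/-! ## 3. The polarised sum and minors -/

/-- HVN (medium): `H` vanishes for small rank. `T x = ∑ j : Fin r, t j x`, `t j` of type `P j ∈ R` (`rankLEOne_iff`). Expand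
(`Finset.prod_univ_sum`): `∑ σ, ∑ c : Fin l → Fin r, sg K A σ * ∏ i, t (c i) (x^(σ i))`. For fixed `c` there are `i ≠ i'` with
`c i = c i'` (pigeonhole). Let `I ∈ (P (c i)).parts` with `|I ∩ A|` odd. The involution `σ ↦ σ'`, `σ' α = σ α * swap i i'` for `α ∈ I`, `σ' α = σ α`
otherwise, preserves the product (`∏ I'` of the factors of `t (c i)`: for the part `I` the values at `i` and `i'` are exchanged, the
other parts do not see `I`) and changes the sign (`(-1)^|I ∩ A|`), no fixed points. `Finset.sum_involution`. Compare HV0 of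
helper46 (`Pool/Agent/helper46/MR/HV0.lean`) and `csum_eq_zero` in `Pool/Agent/helper26/Reserve/SmallMinorsAllFields.lean`. -/
def HVN_stmt : Prop := ∀ (K : Type) [Field K] (d l r : ℕ) (Q : Fin d → Type)
  (R : Set (IndexPartition d)) (T : ((α : Fin d) → Q α) → K), r < l → SumOf R T r →
  ∀ A : Finset (Fin d), (∀ P ∈ R, OddP A P) → H l A T = 0

/-- HMI (short-medium): the same for tensors whose minors with sides at most `l` have rank less than `l`. At a point `x` let
`X α` be the finset of the `x (α, j)`, `j : Fin l`; the minor is `SumOf R _ r` with `r < l`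
(`exists_sumOf_of_rank_lt`), and `H l A T x = H l A (minor T X) x'`, `x' (α, j) = ⟨x (α, j), _⟩`. Hypothesis: `hHVN : HVN_stmt`. -/
def HMI_stmt : Prop := ∀ (K : Type) [Field K] (d l : ℕ) (Q : Fin d → Type)
  (R : Set (IndexPartition d)) (T : ((α : Fin d) → Q α) → K),
  (∀ X : (α : Fin d) → Finset (Q α), (∀ α, (X α).card ≤ l) → rank R (minor T X) < l) →
  ∀ A : Finset (Fin d), (∀ P ∈ R, OddP A P) → H l A T = 0

/-! ## 4. Internal functions -/

/-- INS (short-medium): internal functions form a system. Constants: `UF.mk_surjective`; sums, products: componentwise; `ev w q`: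
`φ n (update · w (q n))`, it does not depend on `w`; `DependsOn`: if `x`, `y` agree on `S` then so do `fun ω => x ω n`, `fun ω => y ω n`. -/
def INS_stmt : Prop := ∀ (𝓅 : Ultrafilter ℕ) (K : ℕ → Type) [∀ n, Field (K n)] (Ω : Type)
  [DecidableEq Ω] (Q : ℕ → Ω → Type), ∃ F : FSys (UF 𝓅 K) Ω (fun ω => (n : ℕ) → Q n ω),
  ∀ (S : Finset Ω) (f : ((ω : Ω) → (n : ℕ) → Q n ω) → UF 𝓅 K), f ∈ F.E S ↔ Int 𝓅 K Q S f

/-- IN2 (short): the two systems of internal functions are compatible. `F`, `F'` from `INS` (for `Fin d`, `Q n`, and `Fin d × Fin l`,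
`fun n w => Q n w.1`); `cop`: `φ n (fun α => x (α, s α))` depends on `gr S s`; `dia`: `φ n (fun w => y w.1)` depends on
`S.image fst`. Hypothesis: `hINS : INS_stmt`. -/
def IN2_stmt : Prop := ∀ (𝓅 : Ultrafilter ℕ) (K : ℕ → Type) [∀ n, Field (K n)] (d l : ℕ)
  (Q : ℕ → Fin d → Type), ∃ G : FSys2 (UF 𝓅 K) d l (fun α => (n : ℕ) → Q n α),
  ∀ (S : Finset (Fin d)) (f : ((α : Fin d) → (n : ℕ) → Q n α) → UF 𝓅 K),
    f ∈ G.F.E S ↔ Int 𝓅 K Q S f

/-- ITR (medium): back to the finite level. By induction on the span: for every `f ∈ F.Fs PP` there are `N` and `φ n` with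
`f x = UF.mk 𝓅 (fun n => φ n (x^n))` and `SumOf PP (φ n) N` for all `n` (generator `∏ I, h I`, `h I` internal: `N = 1`, `rankLEOne_iff`; sums:
`SumOf.add`; scalars `c = UF.mk γ`: `SumOf.smul` needs nonempty partitions, true if `d > 0`; if `d = 0` multiply in a
different way or note that `PP` has only the empty partition and treat `d = 0` separately: then a function is a constant and the
statement is to be shown with `N = 1` or `0`... see the remark below). Then `UF.mk (T n (x^n)) = UF.mk (φ n (x^n))` for all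
sequences `x` of points implies `T n = φ n` for almost all `n` (otherwise choose bad points `x^n` for a set of the
ultrafilter). REMARK: the hypothesis `0 < d` is included. -/
def ITR_stmt : Prop := ∀ (𝓅 : Ultrafilter ℕ) (K : ℕ → Type) [∀ n, Field (K n)] (d : ℕ)
  (Q : ℕ → Fin d → Type) (F : FSys (UF 𝓅 K) (Fin d) (fun α => (n : ℕ) → Q n α)),
  (∀ (S : Finset (Fin d)) (f : ((α : Fin d) → (n : ℕ) → Q n α) → UF 𝓅 K),
    f ∈ F.E S ↔ Int 𝓅 K Q S f) → 0 < d → (∀ n α, Nonempty (Q n α)) →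
  ∀ (PP : Set (IndexPartition d)) (T : (n : ℕ) → ((α : Fin d) → Q n α) → K n),
  (fun x => UF.mk 𝓅 (fun n => T n (fun α => x α n))) ∈ F.Fs PP →
  ∃ N : ℕ, ∀ᶠ n in (𝓅 : Filter ℕ), SumOf PP (T n) N

/-- ITU (medium): up to the ultraproduct. Each `T n` is `SumOf R _ r` (fixed `r`). The partitions `P (n, j) ∈ R`, `j < r`: finitely many
possibilities for the family `(P (n, ·))`, so it is constant on a set of the ultrafilter (`Ultrafilter.eventually_exists_iff` or
finite colourings), `P j`. Take `φ (j, I) n` from `rankLEOne_iff` for these `n` and zero otherwise: `T* = ∑ j, ∏ I ∈ (P j).parts, (germ)`, each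
in the span. -/
def ITU_stmt : Prop := ∀ (𝓅 : Ultrafilter ℕ) (K : ℕ → Type) [∀ n, Field (K n)] (d : ℕ)
  (Q : ℕ → Fin d → Type) (F : FSys (UF 𝓅 K) (Fin d) (fun α => (n : ℕ) → Q n α)),
  (∀ (S : Finset (Fin d)) (f : ((α : Fin d) → (n : ℕ) → Q n α) → UF 𝓅 K),
    f ∈ F.E S ↔ Int 𝓅 K Q S f) → ∀ (R : Set (IndexPartition d))
  (T : (n : ℕ) → ((α : Fin d) → Q n α) → K n) (r : ℕ), (∀ n, SumOf R (T n) r) →
  (fun x => UF.mk 𝓅 (fun n => T n (fun α => x α n))) ∈ F.Fs R

/-- HUL (short-medium): the polarised sum of the germ is the germ of the polarised sums (`map_sum`, `map_prod` for the ring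
homomorphism `UF.mk`), so it vanishes if all `H l A (T n) = 0`; and `l! ≠ 0` in the ultraproduct if `l! ≠ 0` in all `K n`
(`UF.mk_eq_zero`, `map_natCast`). -/
def HUL_stmt : Prop := ∀ (𝓅 : Ultrafilter ℕ) (K : ℕ → Type) [∀ n, Field (K n)] (d l : ℕ)
  (Q : ℕ → Fin d → Type) (T : (n : ℕ) → ((α : Fin d) → Q n α) → K n),
  (∀ A : Finset (Fin d), (∀ n, H l A (T n) = 0) →
    H l A (fun x : (α : Fin d) → (n : ℕ) → Q n α => UF.mk 𝓅 (fun n => T n (fun α => x α n))) = 0) ∧
  ((∀ n, (l.factorial : K n) ≠ 0) → (l.factorial : UF 𝓅 K) ≠ 0)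

/-! ## 5. Theorem 1 -/

/-- TH1R (short-medium): Theorem 1 for one family. `d = 0`: `T` is a function on one point, `SumOf R' T 1` if the family is not empty
(the only partition of `Fin 0` has no parts: the rank one functions are the constant 1; so if `K` is large the rank can be large
or infinite!): to avoid this the hypothesis `0 < d` is included. Suppose there is no `G`: for every `n` choose `K n`, `Q n`, `T n` with `n ≤ rank (cl R) (T n)`
and all minors with sides at most `l` of rank less than `l`; use the sequence `n + 1` in place of `n`: then all `Q n α` are nonempty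
(otherwise `SumOf _ (T n) 0`). `HMI`: `H l A (T n) = 0` for all `A` for which all members of `R` are odd; let `AA` be the finset of
these `A`. `HUL`, `IN2`, `STAR` with `S = univ` (`A ∩ univ = A`; `T*` is in `E univ`): `T* ∈ Fs {P | ∀ A ∈ AA, OddP A P} = Fs (cl R)`; `ITR`
with `𝓅 = hyperfilter`: `SumOf (cl R) (T n) N` for almost all `n`, contradiction for `n > N` (cofinitely many `n`, `Filter.Eventually.exists`).
Hypotheses: `hHMI hHUL hIN2 hSTAR hITR`. -/
def TH1R_stmt : Prop := ∀ (d l : ℕ), 0 < d → ∀ (R : Set (IndexPartition d)), ∃ G : ℕ,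
  ∀ (K : Type) [Field K], (l.factorial : K) ≠ 0 → ∀ (Q : Fin d → Type)
  (T : ((α : Fin d) → Q α) → K), (G : ℕ∞) ≤ rank (cl R) T →
  ∃ X : (α : Fin d) → Finset (Q α), (∀ α, (X α).card ≤ l) ∧ (l : ℕ∞) ≤ rank R (minor T X)

/-- SRK (short-medium): for separated families the ranks with respect to `R` and `cl R` are equal; more generally: if every
member of `R'` refines a member of `R` then `SumOf R' T r → SumOf R T r`. (`rankLEOne_iff`; for `P' ≤ P` put `a J = ∏ I ∈ P'.parts with I ⊆ J`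
for `J ∈ P.parts`; every `I ∈ P'.parts` is contained in exactly one `J`: `Finset.prod_fiberwise_of_maps_to` or
`Finset.prod_comm`.) Second part: `rank R T ≤ rank R' T`. -/
def SRK_stmt : Prop := ∀ (K : Type) [Field K] (d : ℕ) (Q : Fin d → Type)
  (R R' : Set (IndexPartition d)), (∀ P' ∈ R', ∃ P ∈ R, P' ≤ P) →
  ∀ T : ((α : Fin d) → Q α) → K, (∀ r : ℕ, SumOf R' T r → SumOf R T r) ∧ rank R T ≤ rank R' T

/-- TH1 (short): Theorem 1 with `G` depending on `d` and `l` only: maximum over the finitely many families `R` (`Set (IndexPartition d)` is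
finite). Second part: for separated `R`, `cl R` may be replaced by `R` (`SRK`: `rank (cl R) T ≥ rank R T`...: `Sep R` gives
`rank R T ≤ rank (cl R) T`). Hypotheses: `hTH1R hSRK`. -/
def TH1_stmt : Prop := ∃ G : ℕ → ℕ → ℕ, ∀ (d l : ℕ), 0 < d → ∀ (R : Set (IndexPartition d))
  (K : Type) [Field K], (l.factorial : K) ≠ 0 → ∀ (Q : Fin d → Type)
  (T : ((α : Fin d) → Q α) → K),
  ((G d l : ℕ∞) ≤ rank (cl R) T → ∃ X : (α : Fin d) → Finset (Q α), (∀ α, (X α).card ≤ l) ∧
    (l : ℕ∞) ≤ rank R (minor T X)) ∧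
  (Sep R → (G d l : ℕ∞) ≤ rank R T → ∃ X : (α : Fin d) → Finset (Q α), (∀ α, (X α).card ≤ l) ∧
    (l : ℕ∞) ≤ rank R (minor T X))

/-- SP2 (short-medium): families with at most two members are separated. Let `P'` refine neither `P₁` nor `P₂`: there are `L ∈ P'.parts`,
`a ∈ L`, `I ∈ P₁.parts` with `a ∈ I` and `b ∈ L`, `b ∉ I`. `A₁ = {a, b}`: all `|J ∩ A₁|`, `J ∈ P'.parts`, are even (2 for `J = L`, otherwise 0, by
disjointness), and `|I ∩ A₁| = 1`. Similarly `A₂`. If `A₁` is odd for `P₂` take `A₁`; if `A₂` is odd for `P₁` take `A₂`; otherwise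
`A₁ ∆ A₂`: `|J ∩ (A₁ ∆ A₂)| ≡ |J ∩ A₁| + |J ∩ A₂|` mod 2. So `P'` is not in `cl {P₁, P₂}`. (`Fin d` arbitrary.) -/
def SP2_stmt : Prop := ∀ (d : ℕ) (P₁ P₂ : IndexPartition d), Sep ({P₁, P₂} : Set (IndexPartition d))

/-- SPA (short): `RA A` is separated for nonempty `A` with an even number of elements. `P ∈ cl (RA A)` is odd for `A`: `I ∈ P.parts` with `|I ∩ A|`
odd; `I ≠ univ` as `|A|` is even; `pairPartition I _ _` is in `RA A` and `P` refines it (a part different from `I` is disjoint from `I`).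
Second part: for `d = 4` and `A = univ` this is `slices 4` (`|I|` odd: `1` or `3`). -/
def SPA_stmt : Prop := (∀ (d : ℕ) (A : Finset (Fin d)), Even A.card → Sep (RA A)) ∧
  RA (univ : Finset (Fin 4)) = slices 4

/-! ## 6. Theorem 2 -/

/-- EXL (medium): expansions of sums of products of given types. For a down-set `PP` every `g ∈ F.Fs PP` is in the span of the
`b * h`, `b ∈ B J`, `s ∈ J ⊆ S`, `h ∈ F.Fs (lnk J PP)`. For a generator `∏ I ∈ P.parts, h I` let `I₀` be the part with `s ∈ I₀`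
(`Finpartition.exists_mem`); `h I₀` is in the span of `b * h'`, `b ∈ B J`, `s ∈ J ⊆ I₀`, `h' ∈ F.E (I₀ \ J)` (`EXS`); so it is enough to show
`h' * ∏ I ∈ P.parts.erase I₀, h I ∈ F.Fs (lnk J PP)`: if `J = I₀`: `h'` is a constant (`E ∅`), the partition `P.parts.erase I₀` of `S \ I₀`;
if `J ≠ I₀`: the partition of `S \ J` with parts `I₀ \ J` and `P.parts.erase I₀` (`Finpartition.ofErase` / `extend`); with the part `J` it is a
refinement of `P`, so in `PP`. Hypothesis: `hEXS : EXS_stmt`. -/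
def EXL_stmt : Prop := ∀ (K : Type) [Field K] (Ω : Type) [DecidableEq Ω] (Q : Ω → Type)
  (F : FSys K Ω Q) (B : Finset Ω → Set (((ω : Ω) → Q ω) → K)), F.IsB B →
  ∀ (S : Finset Ω) (s : Ω), s ∈ S → ∀ PP : Set (Finpartition S), IsLowerSet PP → ∀ g ∈ F.Fs PP,
  g ∈ Submodule.span K {v | ∃ J : Finset Ω, ∃ b ∈ {b | b ∈ B J ∧ s ∈ J ∧ J ⊆ S},
    ∃ h ∈ F.Fs (lnk J PP), v = b * h}

/-- LKL (short): `lnk J` of a down-set is a down-set, and `lnk J (PP₁ ∩ PP₂) = lnk J PP₁ ∩ lnk J PP₂` (a partition is determined by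
its parts, `Finpartition.ext`). For `J` nonempty, `J ⊆ S`; for `P'' ≤ P'` use `P''.extend`. -/
def LKL_stmt : Prop := ∀ (Ω : Type) [DecidableEq Ω] (S J : Finset Ω), J.Nonempty → J ⊆ S →
  (∀ PP : Set (Finpartition S), IsLowerSet PP → IsLowerSet (lnk J PP)) ∧
  ∀ PP₁ PP₂ : Set (Finpartition S), lnk J (PP₁ ∩ PP₂) = lnk J PP₁ ∩ lnk J PP₂

/-- FSE (short): `F.Fs PP ≤ F.E S`. -/
def FSE_stmt : Prop := ∀ (K : Type) [Field K] (Ω : Type) [DecidableEq Ω] (Q : Ω → Type)
  (F : FSys K Ω Q) (S : Finset Ω) (PP : Set (Finpartition S)), ∀ g ∈ F.Fs PP, g ∈ F.E S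

/-- MEET (medium): intersection of the spaces of sums of products. Strong induction on `S.card`. `S = ∅`: there is only one partition, so
`PP₁`, `PP₂` are empty or everything; `Fs ∅ = 0`. `S ≠ ∅`: `s ∈ S`, `BAS`. `EXL` and `GRP` (`B' J = {b | b ∈ B J ∧ s ∈ J ∧ J ⊆ S}`,
`N J = F.Fs (lnk J PP)`) give expansions `g = ∑ b k * r k = ∑ b' k * r' k` with `r k ∈ Fs (lnk (J k) PP₁)`, `r' k ∈ Fs (lnk (J' k) PP₂)`, the pairs
`(J k, b k)` different, similarly the `(J' k, b' k)`. Compare the expansions: index set the union `t` of the two sets of pairs (as a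
Finset of `Finset Ω × (functions)`), coefficients extended by zero; `IDB` and `UNQ` (coefficients are in `E (S \ J)`: `FSE`): they are equal. So
`r k ∈ Fs (lnk (J k) PP₁) ∩ Fs (lnk (J k) PP₂)`, by induction and `LKL` in `Fs (lnk (J k) (PP₁ ∩ PP₂))`; `LNE`.
Hypotheses: `hUNQ hBAS hIDB hGRP hEXL hLKL hFSE hLNE`. -/
def MEET_stmt : Prop := ∀ (K : Type) [Field K] (Ω : Type) [DecidableEq Ω] (Q : Ω → Type)
  (F : FSys K Ω Q) (S : Finset Ω) (PP₁ PP₂ : Set (Finpartition S)), IsLowerSet PP₁ → IsLowerSet PP₂ →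
  ∀ g, g ∈ F.Fs PP₁ → g ∈ F.Fs PP₂ → g ∈ F.Fs (PP₁ ∩ PP₂)

/-- TH2R (short-medium): Theorem 2 for two families. Otherwise for every `n` there are `K n`, `Q n`, `T n` with
`SumOf R (T n) r₁`, `SumOf R' (T n) r₂` and no `N ≤ n` with `SumOf (meet R R') (T n) N`. (`Q n α` nonempty: otherwise
`SumOf _ (T n) 0`.) `ITU`: `T* ∈ Fs R`, `T* ∈ Fs R'`, so in `Fs` of the down-sets `{P | ∃ P₁ ∈ R, P ≤ P₁}`, ...; `MEET`; the intersection
of the down-sets is the down-set of `meet R R'` (`le_inf`); `ITR`, `SRK` (for the down-set of `meet R R'`): `SumOf (meet R R') (T n) N` for almost all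
`n`: contradiction. Hypotheses: `hINS hITU hMEET hITR hSRK`. -/
def TH2R_stmt : Prop := ∀ (d r₁ r₂ : ℕ), 0 < d → ∀ R R' : Set (IndexPartition d), ∃ N₀ : ℕ,
  ∀ (K : Type) [Field K] (Q : Fin d → Type) (T : ((α : Fin d) → Q α) → K),
  SumOf R T r₁ → SumOf R' T r₂ → ∃ N ≤ N₀, SumOf (meet R R') T N

/-- Q1 for the family `R` over the class `𝓚` of fields -/
def Q1 {d : ℕ} (𝓚 : (K : Type) → Field K → Prop) (R : Set (IndexPartition d)) : Prop :=
  ∀ l : ℕ, ∃ G : ℕ, ∀ (K : Type) (iK : Field K), 𝓚 K iK → ∀ (Q : Fin d → Type)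
  (T : ((α : Fin d) → Q α) → K), (G : ℕ∞) ≤ rank R T →
  ∃ X : (α : Fin d) → Finset (Q α), (∀ α, (X α).card ≤ l) ∧ (l : ℕ∞) ≤ rank R (minor T X)

/-- TH2 (short-medium): Theorem 2 (uniform in the families and in `r₁, r₂ ≤ r`: maximum over finitely many) and the closure of the good
families under common refinement. `rank R T ≤ r` gives `SumOf R T r₁` with `r₁ ≤ r` (`exists_sumOf_of_rank_lt` for `r + 1`).
Second part: let `G₁`, `G₂` be the bounds for `R`, `R'` and `G` larger than all `N₀` for `r₁ < G₁`, `r₂ < G₂`. If `rank R T ≥ G₁` or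
`rank R' T ≥ G₂` use the hypothesis and `rank R _ ≤ rank (meet R R') _` (`SRK`: `P₁ ⊓ P₂ ≤ P₁`). Otherwise `SumOf R T r₁`, `SumOf R' T r₂` with
`r₁ < G₁`, `r₂ < G₂`: `rank (meet R R') T ≤ N₀ < G`. Hypotheses: `hTH2R hSRK`. -/
def TH2_stmt : Prop :=
  (∃ F : ℕ → ℕ → ℕ, ∀ (d r : ℕ), 0 < d → ∀ (R R' : Set (IndexPartition d)) (K : Type) [Field K]
    (Q : Fin d → Type) (T : ((α : Fin d) → Q α) → K), rank R T ≤ r → rank R' T ≤ r →
    rank (meet R R') T ≤ F d r) ∧
  ∀ (d : ℕ), 0 < d → ∀ (𝓚 : (K : Type) → Field K → Prop) (R R' : Set (IndexPartition d)),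
    Q1 𝓚 R → Q1 𝓚 R' → Q1 𝓚 (meet R R')

end Pool.Agent.helper57.MS
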