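import Pool.Agent.helper57.MS.Spec

/-!
# Project ms: specification, part 2 (helper57): all fields

Q1 for all families with at most two partitions, all `d`, EVERY field; strongly separated families; reduction to
bipartitions. Paper proof: /team-store/MP_b48e27_SEP_helper57.md, Part II.

Files as in part 1, `import Pool.Agent.helper57.MS.Spec2`; hypotheses may be statements of `Spec.lean` and of this file.
-/

set_option autoImplicit false

open Finset

namespace Pool.Agent.helper57.MS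

open Pool.Agent.RRank Pool.Agent.helper26.IM

/-! ## 7. Definitions -/

/-- no part of `P` contains `A` -/
def NCP {d : ℕ} {S : Finset (Fin d)} (A : Finset (Fin d)) (P : Finpartition S) : Prop :=
  ∀ I ∈ P.parts, ¬ A ⊆ I

/-- the second closure of a family of partitions -/
def cl2 {d : ℕ} (R : Set (IndexPartition d)) : Set (IndexPartition d) :=
  {P | ∀ A : Finset (Fin d), A.Nonempty → Even A.card → (∀ P' ∈ R, OddP A P') → NCP A P}

/-- `R` is strongly separated: every member of `cl2 R` refines a member of `R` -/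
def SSep {d : ℕ} (R : Set (IndexPartition d)) : Prop := ∀ P ∈ cl2 R, ∃ P' ∈ R, P ≤ P'

/-- the sum over families of permutations with arbitrary weights -/
noncomputable def HC {d : ℕ} (l : ℕ) {Q : Fin d → Type} {K : Type} [Field K]
    (c : (Fin d → Equiv.Perm (Fin l)) → K) (g : ((α : Fin d) → Q α) → K) :
    ((w : Fin d × Fin l) → Q w.1) → K :=
  ∑ σ : Fin d → Equiv.Perm (Fin l), c σ • ∏ i : Fin l, cop g (fun α => σ α i)

/-- the partial sums with arbitrary weights -/
noncomputable def GmC {d : ℕ} (l : ℕ) {Q : Fin d → Type} {K : Type} [Field K]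
    (c : (Fin d → Equiv.Perm (Fin l)) → K) (m : ℕ) (J : Finset (Fin d)) (s₀ : Fin d)
    (g g₀ : ((α : Fin d) → Q α) → K) : ((w : Fin d × Fin l) → Q w.1) → K :=
  ∑ σ ∈ (univ : Finset (Fin d → Equiv.Perm (Fin l))).filter
      (fun σ => ∀ α ∈ J, ∀ i, (σ s₀ i : ℕ) < m → σ α i = σ s₀ i),
    c σ • ∏ i : Fin l, if (σ s₀ i : ℕ) < m then cop g₀ (fun α => σ α i)
      else cop g (fun α => σ α i)

/-- the normalised weights: `σ s₀ = 1` and `σ γ = 1` for `γ ∉ S` -/
noncomputable def nw (K : Type) [Field K] {d l : ℕ} (S A : Finset (Fin d)) (s₀ : Fin d)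
    (σ : Fin d → Equiv.Perm (Fin l)) : K :=
  open Classical in if σ s₀ = 1 ∧ ∀ γ, γ ∉ S → σ γ = 1 then sg K A σ else 0

/-- fixing all coordinates outside `S` -/
def res {Ω : Type} [DecidableEq Ω] {Q : Ω → Type} {K : Type} (S : Finset Ω) (q : (ω : Ω) → Q ω)
    (f : ((ω : Ω) → Q ω) → K) : ((ω : Ω) → Q ω) → K :=
  fun x => f (fun ω => if ω ∈ S then x ω else q ω)

/-! ## 8. Theorem 3 -/

/-- STC (done by helper57): the extraction step with arbitrary weights (proof of ST1 verbatim). -/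
def STC_stmt : Prop := ∀ (K : Type) [Field K] (d l : ℕ) (Q : Fin d → Type) (G : FSys2 K d l Q)
  (S : Finset (Fin d)) (c : (Fin d → Equiv.Perm (Fin l)) → K) (s₀ : Fin d) (κ : Type) [Fintype κ]
  (J : κ → Finset (Fin d)) (b r : κ → ((α : Fin d) → Q α) → K), (∀ k, s₀ ∈ J k ∧ J k ⊆ S) →
  (∀ k, b k ∈ G.F.E (J k)) → (∀ k, r k ∈ G.F.E (S \ J k)) → G.F.Ind J b →
  ∀ (k₀ : κ) (m : ℕ), m < l → GmC l c m (J k₀) s₀ (∑ k, b k * r k) (r k₀) = 0 →
  GmC l c (m + 1) (J k₀) s₀ (∑ k, b k * r k) (r k₀) = 0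

/-- DEC (short-medium): a function with vanishing normalised sum is decomposable. `BAS`, `EXP` (`s₀ ∈ S`), `IDB`: `g = ∑ b k * r k`. For every `k₀` with
`J k₀ = S`: `r k₀ ∈ E (S \ S) = E ∅`; `GmC l c 0 = HC l c g = 0` (`c = nw K S A s₀`; the condition is empty for `m = 0`), so by `STC` (induction on `m ≤ l`)
`GmC l c l (J k₀) s₀ g (r k₀) = 0`: the sum over the `σ` with `σ α = σ s₀` for `α ∈ S` (as permutations) of `c σ • ∏ i, cop (r k₀) (σ · i)`;
`c σ ≠ 0` only for `σ = 1`, and `sg K A 1 = 1`. So `∏ i, cop (r k₀) (fun _ => i) = 0`; at the point `x w = y w.1`: `(r k₀ y)^l = 0`, so `r k₀ = 0`.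
The other terms `b k * r k`, `J k ≠ S`, are in `D S` (`J k` and `S \ J k` are nonempty).
Hypotheses: `hBAS hIDB hEXP hSTC`. -/
def DEC_stmt : Prop := ∀ (K : Type) [Field K] (d l : ℕ) (Q : Fin d → Type) (G : FSys2 K d l Q)
  (S A : Finset (Fin d)) (s₀ : Fin d), 0 < l → s₀ ∈ S → ∀ g ∈ G.F.E S,
  HC l (nw K S A s₀) g = 0 → g ∈ G.F.D S

/-- RES (short-medium): fixing the coordinates outside `S`. As `f` depends on `S'` only, only the coordinates in `S' \ S` have to be fixed:
induction on a finset of coordinates with `ev_mem` (`ev w q`). -/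
def RES_stmt : Prop := ∀ (K : Type) [Field K] (Ω : Type) [DecidableEq Ω] (Q : Ω → Type)
  (F : FSys K Ω Q) (S S' : Finset Ω) (q : (ω : Ω) → Q ω), ∀ f ∈ F.E S', res S q f ∈ F.E (S' ∩ S)

/-- PRT (medium): decomposable restrictions. `A` nonempty, `T ∈ E univ`. If the function space is empty: trivial (`0`). Choose `s ∈ A`; `BAS`, `EXP`
(`S = univ`), `IDB`: `T = ∑ b k * r k`. A term with `¬ A ⊆ J k` is in `Fs`: if `J k = univ` impossible; otherwise the partition `{J k, (J k)ᶜ}`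
(`(J k)ᶜ` does not contain `s`). (The partition of `univ` into `J k` and its complement: `pairPartition`.) Claim: `r k = 0` if `A ⊆ J k`. Otherwise let `J` be
maximal (cardinality) among the `J k ⊇ A` with `r k ≠ 0`, `J = J k₁`, `r k₁ q ≠ 0`. `res J q T = ∑ res J q (b k) * res J q (r k) ∈ D J`. If `J k = J`:
`res J q (b k) = b k` (depends on `J`), `res J q (r k) = const (r k q)` (depends on `Jᶜ`). If `J ⊂ J k`: `r k = 0`. If `¬ J ⊆ J k`: by `RES`
`res (b k) ∈ E (J k ∩ J)`, `res (r k) ∈ E (J \ J k)`, both sets nonempty (`s`), so the product is in `D J`. So `∑_{J k = J} r k q • b k ∈ D J`; `Ind` gives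
`r k₁ q = 0`. Hypotheses: `hBAS hIDB hEXP hRES`. -/
def PRT_stmt : Prop := ∀ (K : Type) [Field K] (d : ℕ) (Q : Fin d → Type) (F : FSys K (Fin d) Q)
  (A : Finset (Fin d)), A.Nonempty → ∀ T ∈ F.E univ,
  (∀ S : Finset (Fin d), A ⊆ S → ∀ q : (α : Fin d) → Q α, res S q T ∈ F.D S) →
  T ∈ F.Fs {P : IndexPartition d | NCP A P}

/-- PVN (medium): the normalised sum vanishes for small rank. As `HVN` (proof of helper11: `Pool/Agent/helper11/MS/HVN.lean`). For a fixed choice `c` of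
the terms there are `i ≠ i'` with `c i = c i'`, type `P`, `I ∈ P.parts` with `|I ∩ A|` odd. Let `I' = I` if `s₀ ∉ I` and `I' = Iᶜ` if `s₀ ∈ I` (`|Iᶜ ∩ A|` is odd, as
`|A|` is even). Involution: `σ γ ↦ σ γ * swap i i'` for `γ ∈ I' ∩ S`, otherwise unchanged; it preserves the conditions `σ s₀ = 1`, `σ γ = 1` for `γ ∉ S`. The
product of the two factors `t (x^{σ i}) t (x^{σ i'})`, `t = a(x_{I'}) b(x_{I'ᶜ})`, does not change: in the directions `γ ∈ I' \ S` the
points at `i` and `i'` are equal. Sign: `(-1)^|I' ∩ S ∩ A| = -1`, as `A ⊆ S`. -/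
def PVN_stmt : Prop := ∀ (K : Type) [Field K] (d l r : ℕ) (Q : Fin d → Type)
  (R : Set (IndexPartition d)) (T : ((α : Fin d) → Q α) → K), r < l → SumOf R T r →
  ∀ A : Finset (Fin d), Even A.card → (∀ P ∈ R, OddP A P) → ∀ S : Finset (Fin d), A ⊆ S →
  ∀ s₀ ∈ A, ∀ x : (w : Fin d × Fin l) → Q w.1,
  (∀ γ, γ ∉ S → ∀ j j' : Fin l, x (γ, j) = x (γ, j')) → HC l (nw K S A s₀) T x = 0

/-- PMI (short-medium): the same for the restrictions of a tensor whose minors with sides at most `l` have rank less than `l`. At a point `x` let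
`x' (γ, j) = x (γ, j)` for `γ ∈ S` and `q γ` otherwise; `HC l c (res S q T) x = HC l c T x'`; as in `HMI` (helper34:
`Pool/Agent/helper34/MS/HMI.lean`) pass to the minor on the sets of the `x' (γ, j)`. Hypothesis: `hPVN : PVN_stmt`. -/
def PMI_stmt : Prop := ∀ (K : Type) [Field K] (d l : ℕ) (Q : Fin d → Type)
  (R : Set (IndexPartition d)) (T : ((α : Fin d) → Q α) → K),
  (∀ X : (α : Fin d) → Finset (Q α), (∀ α, (X α).card ≤ l) → rank R (minor T X) < l) →
  ∀ A : Finset (Fin d), Even A.card → (∀ P ∈ R, OddP A P) → ∀ S : Finset (Fin d), A ⊆ S →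
  ∀ s₀ ∈ A, ∀ q : (α : Fin d) → Q α, HC l (nw K S A s₀) (res S q T) = 0

/-- PUL (short-medium): ultraproduct (as `HUL` of helper54: `Pool/Agent/helper54/MS/HUL.lean`). `nw` of the ultraproduct is the germ of the constants `nw`
(`sg` is an integer `±1`). -/
def PUL_stmt : Prop := ∀ (𝓅 : Ultrafilter ℕ) (K : ℕ → Type) [∀ n, Field (K n)] (d l : ℕ)
  (Q : ℕ → Fin d → Type) (T : (n : ℕ) → ((α : Fin d) → Q n α) → K n) (S A : Finset (Fin d))
  (s₀ : Fin d),
  (∀ n, ∀ q : (α : Fin d) → Q n α, HC l (nw (K n) S A s₀) (res S q (T n)) = 0) →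
  ∀ q : (α : Fin d) → (n : ℕ) → Q n α, HC l (nw (UF 𝓅 K) S A s₀)
    (res S q (fun x : (α : Fin d) → (n : ℕ) → Q n α =>
      UF.mk 𝓅 (fun n => T n (fun α => x α n)))) = 0

/-- INM (short-medium): finite intersections. Induction on `AA` with `MEET`; `{P | NCP A P}` is a down-set. `AA = ∅`: `g ∈ E S` is in `Fs` of all
partitions: `S ≠ ∅`: the partition `{S}` (`Finpartition.indiscrete`), `S = ∅`: `g` is a constant, empty product. Hypothesis: `hMEET : MEET_stmt`. -/
def INM_stmt : Prop := ∀ (K : Type) [Field K] (d : ℕ) (Q : Fin d → Type) (F : FSys K (Fin d) Q)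
  (S : Finset (Fin d)) (AA : Finset (Finset (Fin d))), ∀ g ∈ F.E S,
  (∀ A ∈ AA, g ∈ F.Fs {P : Finpartition S | NCP A P}) →
  g ∈ F.Fs {P : Finpartition S | ∀ A ∈ AA, NCP A P}

/-- TH3R (short-medium): Theorem 3 for one family (`l = 0`: empty minors). As `TH1R` (helper3: `Pool/Agent/helper3/MS/TH1R.lean`): a sequence of counterexamples
`T n`; `PMI`, `PUL`: `HC l (nw _ S A s₀) (res S q T*) = 0` for all `A` nonempty, even, such that all members of `R` are odd, all `S ⊇ A`, `s₀ ∈ A`, all `q`.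
`RES`: `res S q T* ∈ E S`, so `DEC`: it is in `D S`; `PRT`: `T* ∈ Fs {P | NCP A P}`; `INM` for the finset of these `A` (`S = univ`): `T* ∈ Fs (cl2 R)`; `ITR`.
Hypotheses: `hPMI hPUL hRES hDEC hPRT hINM hIN2 hITR`. -/
def TH3R_stmt : Prop := ∀ (d l : ℕ), 0 < d → ∀ (R : Set (IndexPartition d)), ∃ G : ℕ,
  ∀ (K : Type) [Field K] (Q : Fin d → Type)
  (T : ((α : Fin d) → Q α) → K), (G : ℕ∞) ≤ rank (cl2 R) T →
  ∃ X : (α : Fin d) → Finset (Q α), (∀ α, (X α).card ≤ l) ∧ (l : ℕ∞) ≤ rank R (minor T X)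

/-! ## 9. The property Q1 for finite index sets -/

/-- Q1 for the family `R` over the class `𝓚` of fields -/
def Q1F {d : ℕ} (𝓚 : ℕ → (K : Type) → Field K → Prop) (R : Set (IndexPartition d)) : Prop :=
  ∀ l : ℕ, ∃ G : ℕ, ∀ (K : Type) (iK : Field K), 𝓚 l K iK → ∀ (Q : Fin d → Type) [∀ α, Finite (Q α)]
  (T : ((α : Fin d) → Q α) → K), (G : ℕ∞) ≤ rank R T →
  ∃ X : (α : Fin d) → Finset (Q α), (∀ α, (X α).card ≤ l) ∧ (l : ℕ∞) ≤ rank R (minor T X)

/-- TH3 (short): strongly separated families are good over all fields (`TH3R`, `SRK`: `rank R T ≤ rank (cl2 R) T`).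
Hypotheses: `hTH3R hSRK`. -/
def TH3_stmt : Prop := ∀ (d : ℕ), 0 < d → ∀ (𝓚 : ℕ → (K : Type) → Field K → Prop)
  (R : Set (IndexPartition d)), SSep R → Q1F 𝓚 R

/-- QMT (short-medium): closure under common refinement: copy of the second part of `TH2` (helper40: `Pool/Agent/helper40/MS/TH2.lean`).
Hypotheses: `hTH2R hSRK`. -/
def QMT_stmt : Prop := ∀ (d : ℕ), 0 < d → ∀ (𝓚 : ℕ → (K : Type) → Field K → Prop)
  (R R' : Set (IndexPartition d)), Q1F 𝓚 R → Q1F 𝓚 R' → Q1F 𝓚 (meet R R')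

/-- QDS (short): `Q1F` depends only on the down-set (`SRK` twice: `rank R T = rank R' T`). Hypothesis: `hSRK`. -/
def QDS_stmt : Prop := ∀ (d : ℕ) (𝓚 : ℕ → (K : Type) → Field K → Prop) (R R' : Set (IndexPartition d)),
  (∀ P ∈ R, ∃ P' ∈ R', P ≤ P') → (∀ P ∈ R', ∃ P' ∈ R, P ≤ P') → Q1F 𝓚 R → Q1F 𝓚 R'

/-- QTP (short-medium): families with the trivial partition. `rank R T ≤ 1` for all `T` (`T` is a function of all coordinates, `RankLEOne` with the
partition `{univ}`). `l = 0`: `X = ∅`. `l = 1`: `G = 1`: `T ≠ 0` (otherwise rank 0), `T x ≠ 0`, `X α = {x α}`, the minor is not zero, so not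
`SumOf R _ 0`, rank at least 1. `l ≥ 2`: `G = 2`. -/
def QTP_stmt : Prop := ∀ (d : ℕ), 0 < d → ∀ (𝓚 : ℕ → (K : Type) → Field K → Prop)
  (R : Set (IndexPartition d)), (∃ P ∈ R, P.parts = {univ}) → Q1F 𝓚 R

/-- QFI (short-medium): finite intersections of down-sets. Induction on a finset (`Finite.induction_empty_option` or over `Finset ι` with the statement for all
`R₀`): empty index set: all partitions refine a member of `R₀`; the partition `{univ}` too, so it is in `R₀`: `QTP`. Step: `QMT` for the family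
`{P | ∀ i ∈ s, ∃ P' ∈ R i, P ≤ P'}` (a good family by induction) and `R j`; `QDS`: down-set of the `meet` = intersection (`le_inf`).
Hypotheses: `hQMT hQDS hQTP`. -/
def QFI_stmt : Prop := ∀ (d : ℕ), 0 < d → ∀ (𝓚 : ℕ → (K : Type) → Field K → Prop) (ι : Type)
  [Finite ι] (R : ι → Set (IndexPartition d)) (R₀ : Set (IndexPartition d)), (∀ i, Q1F 𝓚 (R i)) →
  (∀ P : IndexPartition d, (∃ P' ∈ R₀, P ≤ P') ↔ ∀ i, ∃ P' ∈ R i, P ≤ P') → Q1F 𝓚 R₀

/-! ## 10. Bipartitions, blocks -/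

/-- the bipartition `{I, Iᶜ}` (for `I = ∅` or `I = univ`: the partition `{univ}`) as a family with one member -/
def bipF {d : ℕ} (I : Finset (Fin d)) : Set (IndexPartition d) :=
  {P | P.parts = ({I, Iᶜ} : Finset (Finset (Fin d))).erase ∅}

/-- the bipartitions given by a choice of a part of every member of `R` -/
def Rf {d : ℕ} (R : Set (IndexPartition d)) (f : IndexPartition d → Finset (Fin d)) :
    Set (IndexPartition d) :=
  {P | ∃ P' ∈ R, P ∈ bipF (f P')}

/-- BPE (short): for `0 < d` the family `bipF I` has a member (`pairPartition` or `Finpartition.indiscrete`), and a partition `P` refines it iff every part of `P`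
is contained in `I` or in `Iᶜ`. -/
def BPE_stmt : Prop := ∀ (d : ℕ), 0 < d → ∀ (I : Finset (Fin d)), (∃ P, P ∈ bipF I) ∧
  ∀ (P B : IndexPartition d), B ∈ bipF I → (P ≤ B ↔ ∀ L ∈ P.parts, L ⊆ I ∨ L ⊆ Iᶜ)

/-- RDC (short-medium): the down-set of `R` is the intersection of the down-sets of the `Rf R f`. (→) `P ≤ P' ∈ R`, `f P' ∈ P'.parts`: every part of `P` is contained in a part of `P'`,
so in `f P'` or its complement. (←) if `P` refines no `P' ∈ R` choose for `P' ∈ R` a part `L` of `P` which is in no part of `P'`, `x ∈ L`, `f P'` = the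
part of `P'` with `x ∈ f P'`: `L` is not in `f P'` and not in its complement. (`f P' = ` any part otherwise; `f` for `P' ∉ R` arbitrary.) Hypothesis: `hBPE`. -/
def RDC_stmt : Prop := ∀ (d : ℕ), 0 < d → ∀ (R : Set (IndexPartition d)) (P : IndexPartition d),
  (∃ P' ∈ R, P ≤ P') ↔
    ∀ f : IndexPartition d → Finset (Fin d), (∀ P' ∈ R, f P' ∈ P'.parts) → ∃ P'' ∈ Rf R f, P ≤ P''

/-- TH5 (short): reduction to bipartitions. `QFI` with `ι` = the subtype of the choice functions (finite). Hypotheses: `hQFI hRDC`. -/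
def TH5_stmt : Prop := ∀ (d : ℕ), 0 < d → ∀ (𝓚 : ℕ → (K : Type) → Field K → Prop)
  (R : Set (IndexPartition d)),
  (∀ f : IndexPartition d → Finset (Fin d), (∀ P' ∈ R, f P' ∈ P'.parts) → Q1F 𝓚 (Rf R f)) →
  Q1F 𝓚 R

/-- the pull-back of a family of partitions -/
def pull {d m : ℕ} (φ : Fin d → Fin m) (R' : Set (IndexPartition m)) : Set (IndexPartition d) :=
  {P | ∃ P' ∈ R', P.parts = (P'.parts.image (fun I => univ.filter (fun x => φ x ∈ I))).erase ∅}

/-- BLK (medium): blocks. Same `G`. For `T` on `Q α` put `Q' β = (α : {α // φ α = β}) → Q α` (finite), `T' y = T (fun α => y (φ α) ⟨α, rfl⟩)`. (a) `SumOf R' T' r → SumOf (pull φ R') T r`: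
`x ↦ (fun β α => x α)` composed with `T'` is `T`; a product `∏ I ∈ P'.parts, a I (y restricted to I)` is a product over the parts
`φ⁻¹ I ≠ ∅` times constants (for `φ⁻¹ I = ∅`), absorb the constants in one factor (`0 < d`) or use `RankLEOne.smul`. (`rankLEOne_iff`.) So `rank R' T' ≥ G`.
(b) `X'` for `T'`: `X α` = the image of `X' (φ α)` under `y ↦ y ⟨α, rfl⟩`. (c) `SumOf (pull φ R') (minor T X) r → SumOf R' (minor T' X') r`: for `y : ∏ X' β` the
point `α ↦ y (φ α) ⟨α, rfl⟩ ∈ X α`; factors `a (φ⁻¹ I)` (or 1 if `φ⁻¹ I = ∅`); the map `I ↦ φ⁻¹ I` is injective on the parts with `φ⁻¹ I ≠ ∅`. -/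
def BLK_stmt : Prop := ∀ (d m : ℕ), 0 < d → ∀ (φ : Fin d → Fin m)
  (𝓚 : ℕ → (K : Type) → Field K → Prop) (R' : Set (IndexPartition m)), Q1F 𝓚 R' → Q1F 𝓚 (pull φ R')

/-- the two bipartitions `{23|01}` and `{13|02}` of `Fin 4` -/
def R4 : Set (IndexPartition 4) := bipF ({2, 3} : Finset (Fin 4)) ∪ bipF ({1, 3} : Finset (Fin 4))

/-- SS4 (short-medium): `R4` is strongly separated. `{0, 3}` and `{1, 2}` are even and odd for both members (`|{2,3} ∩ {0,3}| = 1`, ...). So a member `P` of `cl2 R4` has no part which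
contains `{0, 3}` or `{1, 2}`. If `P` does not refine `{23|01}` there is a part `L` with a point in `{2, 3}` and a point in `{0, 1}`: `L = {0, 2}` or `{1, 3}`; the
other points `1, 3` (or `0, 2`) are in parts contained in `{1, 3}` (`{0, 2}`), so `P ≤ {13|02}`. (`BPE`; case analysis on the parts of the four
points.) Hypothesis: `hBPE`. -/
def SS4_stmt : Prop := SSep R4

/-- TWO (short-medium): two bipartitions. `φ x = 2·[x ∈ I] + [x ∈ J] : Fin 4`; `pull φ R4 = bipF I ∪ bipF J` (`φ⁻¹ {2,3} = I`, `φ⁻¹ {1,3} = J`, complements). `TH3`, `SS4`, `BLK`. If you prefer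
use `QDS` and inclusions. Hypotheses: `hTH3 hSS4 hBLK`. -/
def TWO_stmt : Prop := ∀ (d : ℕ), 0 < d → ∀ (𝓚 : ℕ → (K : Type) → Field K → Prop)
  (I J : Finset (Fin d)), Q1F 𝓚 (bipF I ∪ bipF J)

/-- TH4 (short): at most two partitions. `R = {P₁, P₂}` (`P₁ = P₂` allowed; `Set.ncard_le_two` or so; `IndexPartition d` is finite). `Rf R f = bipF (f P₁) ∪ bipF (f P₂)`; `TWO`, `TH5`.
Hypotheses: `hTWO hTH5`. -/
def TH4_stmt : Prop := ∀ (d : ℕ), 0 < d → ∀ (𝓚 : ℕ → (K : Type) → Field K → Prop)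
  (P₁ P₂ : IndexPartition d), Q1F 𝓚 ({P₁, P₂} : Set (IndexPartition d))

/-- FIN (short): the final statement. For every `(d, l)` the maximum of the bounds over the finitely many families. First part `TH4` (`𝓚` = all fields), second part
`TH1` (for finite `Q`). Hypotheses: `hTH4 hTH1`. -/
def FIN_stmt : Prop := ∃ G : ℕ → ℕ → ℕ, ∀ (d l : ℕ), 0 < d → ∀ (R : Set (IndexPartition d)),
  R.Nonempty → ∀ (K : Type) [Field K], (R.ncard ≤ 2 ∨ ((l.factorial : K) ≠ 0 ∧ Sep R)) →
  ∀ (Q : Fin d → Type) [∀ α, Finite (Q α)] (T : ((α : Fin d) → Q α) → K),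
  (G d l : ℕ∞) ≤ rank R T → ∃ X : (α : Fin d) → Finset (Q α), (∀ α, (X α).card ≤ l) ∧
    (l : ℕ∞) ≤ rank R (minor T X)

end Pool.Agent.helper57.MS
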