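import Pool.Agent.helper57.MS.Spec2

/-!
# Project ms: specification, part 3 (helper57): reductions and the class of good families

Files as in part 1, `import Pool.Agent.helper57.MS.Spec3`.
-/

set_option autoImplicit false

open Finset

namespace Pool.Agent.helper57.MS

open Pool.Agent.RRank Pool.Agent.helper26.IM

/-- the universal family of `m` bipartitions: the directions are the numbers less than `2 ^ m`, the `i`-th bipartition is given by
the `i`-th binary digit -/
def UM (m : ℕ) : Set (IndexPartition (2 ^ m)) :=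
  {P | ∃ i < m, P ∈ bipF (univ.filter (fun x : Fin (2 ^ m) => (x : ℕ).testBit i = true))}

/-- UMC (medium): the universal family is complete for the families with at most `m` members. `TH5`: let `f` be a choice function. Enumerate `R` by a function
`e : Fin m → IndexPartition d` with range `R` (`R` is finite and nonempty, at most `m` members). `φ x < 2 ^ m` the number with the digits `[x ∈ f (e i)]` (`Nat.ofBits`,
`Nat.testBit_ofBits_lt`). `pull φ (UM m)` and `Rf R f` have the same members (`φ⁻¹ {x | testBit x i} = f (e i)`, `φ⁻¹` of the complement is the complement; the parts of the pull-back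
are the nonempty ones), at least the same down-sets: `BLK`, `QDS`. `BPE` gives members of `bipF`. For `P ∈ Rf R f`, `P ∈ bipF (f (e i))`:
take `P' ∈ bipF {x | testBit x i}` and check `P.parts = (P'.parts.image φ⁻¹).erase ∅`. Hypotheses: `hTH5 hBLK hQDS hBPE`. -/
def UMC_stmt : Prop := ∀ (m : ℕ) (𝓚 : ℕ → (K : Type) → Field K → Prop), Q1F 𝓚 (UM m) →
  ∀ (d : ℕ), 0 < d → ∀ R : Set (IndexPartition d), R.Nonempty → R.ncard ≤ m → Q1F 𝓚 R

/-- NPR (short): it is enough to treat for every partition `P'` the family of the partitions which are not coarser than `P'`. `QFI` with `ι = {P' // ¬ ∃ M ∈ R, P' ≤ M}`,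
`R P' = {P | ¬ P' ≤ P}`, `R₀ = R`. (`P ≤ M ∈ R` and `P' ≤ P` imply `P' ≤ M`; conversely if `P` refines no member of `R` take `P' = P`.) Hypothesis: `hQFI`. -/
def NPR_stmt : Prop := ∀ (d : ℕ), 0 < d → ∀ (𝓚 : ℕ → (K : Type) → Field K → Prop),
  (∀ P' : IndexPartition d, Q1F 𝓚 {P | ¬ P' ≤ P}) → ∀ R : Set (IndexPartition d), Q1F 𝓚 R

/-- TRI (short): order three, from the landed hand-in: import `Pool.Agent.Results.MP_b48e27_co.OrderThreeAllFields` and use its `result`. -/
def TRI_stmt : Prop := ∀ (𝓚 : ℕ → (K : Type) → Field K → Prop) (R : Set (IndexPartition 3)),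
  R.Nonempty → Q1F 𝓚 R

/-- the class of good families over the class `𝓚` of fields -/
inductive GF (𝓚 : ℕ → (K : Type) → Field K → Prop) : (d : ℕ) → Set (IndexPartition d) → Prop
  | two {d : ℕ} (R : Set (IndexPartition d)) : R.Nonempty → R.ncard ≤ 2 → GF 𝓚 d R
  | three (R : Set (IndexPartition 3)) : R.Nonempty → GF 𝓚 3 R
  | ssep {d : ℕ} (R : Set (IndexPartition d)) : SSep R → GF 𝓚 d R
  | sep {d : ℕ} (R : Set (IndexPartition d)) :
      (∀ (l : ℕ) (K : Type) (iK : Field K), 𝓚 l K iK → (l.factorial : K) ≠ 0) → Sep R → GF 𝓚 d R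
  | meet {d : ℕ} (R R' : Set (IndexPartition d)) : GF 𝓚 d R → GF 𝓚 d R' → GF 𝓚 d (meet R R')
  | pull {d m : ℕ} (φ : Fin d → Fin m) (R' : Set (IndexPartition m)) :
      GF 𝓚 m R' → GF 𝓚 d (pull φ R')
  | down {d : ℕ} (R R' : Set (IndexPartition d)) : (∀ P ∈ R, ∃ P' ∈ R', P ≤ P') →
      (∀ P ∈ R', ∃ P' ∈ R, P ≤ P') → GF 𝓚 d R → GF 𝓚 d R'

/-- GEN (short-medium): Q1 for all families of the class. Induction on `GF` (statement `0 < d → Q1F 𝓚 R`). `two`: `TH4` (`R = {P₁, P₂}`, `P₁ = P₂` allowed). `three`: `TRI`. `ssep`: `TH3`. `sep`: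
`TH1` (second part, for fixed `l`, `G d l`). `meet`: `QMT`. `pull`: `BLK`; `0 < m` since `Fin d → Fin m` and `0 < d`. `down`: `QDS`.
Hypotheses: `hTH4 hTRI hTH3 hTH1 hQMT hBLK hQDS`. -/
def GEN_stmt : Prop := ∀ (𝓚 : ℕ → (K : Type) → Field K → Prop) (d : ℕ)
  (R : Set (IndexPartition d)), GF 𝓚 d R → 0 < d → Q1F 𝓚 R

end Pool.Agent.helper57.MS
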